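import Pool.Agent.Q170.WD.St

set_option autoImplicit false

/-!
# Project WD (helper170), job SUM (helper184): Hilbert functions of several primes add up
-/

namespace Pool.Agent.Q184.WD

open Pool.Agent.Q170.WD MvPolynomial

/-- the image of the polynomials of degree at most `t` -/
noncomputable def UU {L : Type} [Field L] {N : ℕ} (I : Ideal (MvPolynomial (Fin N) L)) (t : ℕ) :
    Submodule L (MvPolynomial (Fin N) L ⧸ I) :=
  (restrictTotalDegree (Fin N) L t).map (Ideal.Quotient.mkₐ L I).toLinearMap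

theorem hilb_eq {L : Type} [Field L] {N : ℕ} (I : Ideal (MvPolynomial (Fin N) L)) (t : ℕ) :
    hilb I t = Module.finrank L (UU I t) := rfl

instance finite_rtd {L : Type} [Field L] (N t : ℕ) :
    Module.Finite L (restrictTotalDegree (Fin N) L t) := by
  have h : Finite {n : Fin N →₀ ℕ | (n.sum fun _ e => e) ≤ t} :=
    (Finsupp.finite_of_degree_le t).to_subtype
  exact Module.Finite.of_basis (basisRestrictSupport L {n : Fin N →₀ ℕ | (n.sum fun _ e => e) ≤ t})

instance finite_UU {L : Type} [Field L] {N : ℕ} (I : Ideal (MvPolynomial (Fin N) L)) (t : ℕ) :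
    Module.Finite L (UU I t) := by
  unfold UU
  infer_instance

theorem free_UU {L : Type} [Field L] {N : ℕ} (I : Ideal (MvPolynomial (Fin N) L)) (t : ℕ) :
    Module.Free L (UU I t) :=
  Module.Free.of_divisionRing L (UU I t)

theorem mem_UU {L : Type} [Field L] {N : ℕ} {I : Ideal (MvPolynomial (Fin N) L)} {t : ℕ}
    {u : MvPolynomial (Fin N) L ⧸ I} :
    u ∈ UU I t ↔ ∃ a : MvPolynomial (Fin N) L, a.totalDegree ≤ t ∧ Ideal.Quotient.mk I a = u := by
  unfold UU
  rw [Submodule.mem_map]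
  constructor
  · rintro ⟨a, ha, h⟩
    exact ⟨a, (mem_restrictTotalDegree _ _ _).1 ha, h⟩
  · rintro ⟨a, ha, h⟩
    exact ⟨a, (mem_restrictTotalDegree _ _ _).2 ha, h⟩

/-- Separating elements. -/
theorem exists_sep {R : Type} [CommRing R] (F : Finset (Ideal R)) (hF : ∀ Q ∈ F, Q.IsPrime)
    (hinc : ∀ Q ∈ F, ∀ Q' ∈ F, Q ≤ Q' → Q = Q') (Q : Ideal R) (hQ : Q ∈ F) :
    ∃ g : R, g ∉ Q ∧ ∀ Q' ∈ F, Q' ≠ Q → g ∈ Q' := by
  classical
  have h1 : ∀ Q' : Ideal R, ∃ h : R, Q' ∈ F.erase Q → h ∈ Q' ∧ h ∉ Q := by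
    intro Q'
    by_cases h : Q' ∈ F.erase Q
    · have h2 : ¬ Q' ≤ Q := by
        intro h3
        exact (Finset.mem_erase.1 h).1 (hinc Q' (Finset.mem_erase.1 h).2 Q hQ h3)
      obtain ⟨x, hx, hx'⟩ := Set.not_subset.1 h2
      exact ⟨x, fun _ => ⟨hx, hx'⟩⟩
    · exact ⟨0, fun h' => absurd h' h⟩
  choose h hh using h1
  refine ⟨∏ Q' ∈ F.erase Q, h Q', ?_, ?_⟩
  · intro hmem
    have hp := hF Q hQ
    obtain ⟨Q', hQ', hmem'⟩ := (hp.prod_mem_iff).1 hmem
    exact (hh Q' hQ').2 hmem'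
  · intro Q' hQ' hne
    have hQ'' : Q' ∈ F.erase Q := Finset.mem_erase.2 ⟨hne, hQ'⟩
    exact Ideal.mem_of_dvd Q' (Finset.dvd_prod_of_mem h hQ'') (hh Q' hQ'').1

/-- JOB SUM. -/
theorem t_SUM : S_SUM := by
  classical
  intro L _ N J F hF hinc hJ
  have hsep : ∀ Q : F, ∃ g : MvPolynomial (Fin N) L, g ∉ (Q : Ideal (MvPolynomial (Fin N) L)) ∧
      ∀ Q' ∈ F, Q' ≠ (Q : Ideal (MvPolynomial (Fin N) L)) → g ∈ Q' :=
    fun Q => exists_sep F hF hinc Q Q.2
  choose g hg1 hg2 using hsep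
  refine ⟨Finset.univ.sup fun Q : F => (g Q).totalDegree, fun t ht => ?_⟩
  set c : ℕ := Finset.univ.sup fun Q : F => (g Q).totalDegree with hc
  have hgc : ∀ Q : F, (g Q).totalDegree ≤ c := fun Q =>
    Finset.le_sup (f := fun Q : F => (g Q).totalDegree) (Finset.mem_univ Q)
  -- the map on the product
  let Θ : ((Q : F) → UU (Q : Ideal (MvPolynomial (Fin N) L)) (t - c)) →ₗ[L]
      ((Q : F) → MvPolynomial (Fin N) L ⧸ (Q : Ideal (MvPolynomial (Fin N) L))) :=
    LinearMap.pi fun Q => (LinearMap.mulLeft L (Ideal.Quotient.mk _ (g Q))) ∘ₗ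
      (UU (Q : Ideal (MvPolynomial (Fin N) L)) (t - c)).subtype ∘ₗ LinearMap.proj Q
  have hΘ : ∀ u Q, Θ u Q = Ideal.Quotient.mk _ (g Q) * (u Q : MvPolynomial (Fin N) L ⧸
      (Q : Ideal (MvPolynomial (Fin N) L))) := fun u Q => rfl
  let π : (MvPolynomial (Fin N) L ⧸ J) →ₗ[L]
      ((Q : F) → MvPolynomial (Fin N) L ⧸ (Q : Ideal (MvPolynomial (Fin N) L))) :=
    LinearMap.pi fun Q => (Ideal.Quotient.factorₐ L (hJ Q Q.2)).toLinearMap
  have hπ : ∀ p Q, π (Ideal.Quotient.mk J p) Q = Ideal.Quotient.mk _ p := fun p Q => rfl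
  have hinj : Function.Injective Θ := by
    intro u v huv
    funext Q
    have h1 := congrFun huv Q
    rw [hΘ, hΘ] at h1
    have hp := hF Q Q.2
    have h2 : Ideal.Quotient.mk (Q : Ideal (MvPolynomial (Fin N) L)) (g Q) ≠ 0 := by
      intro h3
      exact hg1 Q (Ideal.Quotient.eq_zero_iff_mem.1 h3)
    exact Subtype.ext (mul_left_cancel₀ h2 h1)
  have hran : ∀ u, Θ u ∈ (UU J t).map π := by
    intro u
    have h1 : ∀ Q : F, ∃ a : MvPolynomial (Fin N) L, a.totalDegree ≤ t - c ∧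
        Ideal.Quotient.mk (Q : Ideal (MvPolynomial (Fin N) L)) a = u Q :=
      fun Q => mem_UU.1 (u Q).2
    choose a ha1 ha2 using h1
    refine Submodule.mem_map.2 ⟨Ideal.Quotient.mk J (∑ Q : F, g Q * a Q), mem_UU.2 ⟨_, ?_, rfl⟩, ?_⟩
    · refine MvPolynomial.totalDegree_finsetSum_le fun Q _ => ?_
      refine (MvPolynomial.totalDegree_mul _ _).trans ?_
      have h2 := hgc Q
      have h3 := ha1 Q
      omega
    · funext Q
      rw [hπ, hΘ, ← ha2 Q, map_sum, ← map_mul]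
      rw [Finset.sum_eq_single Q]
      · intro Q' _ hne
        rw [map_mul]
        have h2 : g Q' ∈ (Q : Ideal (MvPolynomial (Fin N) L)) := by
          refine hg2 Q' Q Q.2 ?_
          intro h3
          exact hne (Subtype.ext h3.symm)
        rw [Ideal.Quotient.eq_zero_iff_mem.2 h2, zero_mul]
      · intro h2
        exact absurd (Finset.mem_univ Q) h2
  have hfree : ∀ Q : F, Module.Free L (UU (Q : Ideal (MvPolynomial (Fin N) L)) (t - c)) :=
    fun Q => free_UU _ _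
  have hfin : Module.finrank L ((Q : F) → UU (Q : Ideal (MvPolynomial (Fin N) L)) (t - c)) =
      ∑ Q : F, Module.finrank L (UU (Q : Ideal (MvPolynomial (Fin N) L)) (t - c)) :=
    Module.finrank_pi_fintype L
  have h1 : Module.finrank L ((Q : F) → UU (Q : Ideal (MvPolynomial (Fin N) L)) (t - c)) ≤
      Module.finrank L ((UU J t).map π) := by
    refine LinearMap.finrank_le_finrank_of_injective
      (f := LinearMap.codRestrict ((UU J t).map π) Θ hran) ?_
    intro u v huv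
    apply hinj
    exact congrArg Subtype.val huv
  have h2 : Module.finrank L ((UU J t).map π) ≤ Module.finrank L (UU J t) :=
    Submodule.finrank_map_le π (UU J t)
  have h3 : ∑ Q ∈ F, hilb Q (t - c) = ∑ Q : F, hilb (Q : Ideal (MvPolynomial (Fin N) L)) (t - c) :=
    (Finset.sum_coe_sort F fun Q => hilb Q (t - c)).symm
  rw [h3]
  calc ∑ Q : F, hilb (Q : Ideal (MvPolynomial (Fin N) L)) (t - c)
      = Module.finrank L ((Q : F) → UU (Q : Ideal (MvPolynomial (Fin N) L)) (t - c)) := hfin.symm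
    _ ≤ Module.finrank L (UU J t) := h1.trans h2
    _ = hilb J t := rfl

end Pool.Agent.Q184.WD
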