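import Pool.Agent.Q170.WD.St

set_option autoImplicit false

/-!
# Project WD (helper170), job ASY (helper184): differences of sequences
-/

namespace Pool.Agent.Q184.WD

open Pool.Agent.Q170.WD

theorem pow_sub_le (x y : ℝ) (hy : 0 ≤ y) (hxy : y ≤ x) (d : ℕ) :
    x ^ (d + 1) - y ^ (d + 1) ≤ ((d : ℝ) + 1) * (x - y) * x ^ d := by
  induction d with
  | zero => simp
  | succ d ih =>
    have hx : 0 ≤ x := hy.trans hxy
    have h1 : x ^ (d + 1 + 1) - y ^ (d + 1 + 1) =
        x * (x ^ (d + 1) - y ^ (d + 1)) + (x - y) * y ^ (d + 1) := by ring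
    have h2 : x * (x ^ (d + 1) - y ^ (d + 1)) ≤ x * (((d : ℝ) + 1) * (x - y) * x ^ d) :=
      mul_le_mul_of_nonneg_left ih hx
    have h3 : (x - y) * y ^ (d + 1) ≤ (x - y) * x ^ (d + 1) :=
      mul_le_mul_of_nonneg_left (pow_le_pow_left₀ hy hxy _) (sub_nonneg.2 hxy)
    have h4 : x * (((d : ℝ) + 1) * (x - y) * x ^ d) + (x - y) * x ^ (d + 1) =
        (((d + 1 : ℕ) : ℝ) + 1) * (x - y) * x ^ (d + 1) := by
      push_cast
      ring
    rw [h1, ← h4]
    exact add_le_add h2 h3

/-- JOB ASY. -/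
theorem t_ASY : S_ASY := by
  intro a b d e δ h1 h2 ε hε t0
  by_contra hcon
  push Not at hcon
  rcases Nat.eq_zero_or_pos e with he | he
  · have h3 := hcon t0 le_rfl
    have h4 := h2 t0 (by omega)
    have h5 : b t0 = 0 := by
      rw [he, Nat.sub_zero] at h4
      omega
    rw [h5, Nat.cast_zero, zero_mul] at h3
    have h6 : 0 ≤ (((e * δ : ℕ) : ℝ) + ε) * (t0 : ℝ) ^ d := by positivity
    linarith
  have heR : (0 : ℝ) < e := by exact_mod_cast he
  set κ : ℝ := ((e * δ : ℕ) : ℝ) + ε with hκ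
  have hκ0 : 0 < κ := by positivity
  set t1 : ℕ := max t0 e with ht1
  have hC : 0 ≤ κ / e * (t1 : ℝ) ^ (d + 1) := by positivity
  -- the potential is bounded below
  have key : ∀ t : ℕ, κ / e * (t : ℝ) ^ (d + 1) - κ / e * (t1 : ℝ) ^ (d + 1) ≤
      (a t : ℝ) * ((d + 1).factorial : ℝ) := by
    intro t
    induction t using Nat.strong_induction_on with
    | _ t ih =>
      by_cases ht : t < t1
      · have h3 : (t : ℝ) ^ (d + 1) ≤ (t1 : ℝ) ^ (d + 1) :=
          pow_le_pow_left₀ (Nat.cast_nonneg _) (by exact_mod_cast ht.le) _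
        have h4 : κ / e * (t : ℝ) ^ (d + 1) ≤ κ / e * (t1 : ℝ) ^ (d + 1) :=
          mul_le_mul_of_nonneg_left h3 (by positivity)
        have h5 : 0 ≤ (a t : ℝ) * ((d + 1).factorial : ℝ) := by positivity
        linarith
      · push Not at ht
        have hte : e ≤ t := (le_max_right _ _).trans ht
        have htt : t0 ≤ t := (le_max_left _ _).trans ht
        have h3 := ih (t - e) (by omega)
        have h4 := h2 t hte
        have h5 := hcon t htt
        have h6 : ((t - e : ℕ) : ℝ) = (t : ℝ) - e := by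
          rw [Nat.cast_sub hte]
        have hteR : (e : ℝ) ≤ t := by exact_mod_cast hte
        have h7 := pow_sub_le (t : ℝ) ((t : ℝ) - e) (by linarith) (by linarith) d
        rw [sub_sub_cancel] at h7
        rw [h6] at h3
        have h8 : (b t : ℝ) + (a (t - e) : ℝ) ≤ a t := by exact_mod_cast h4
        have h9 : ((d + 1).factorial : ℝ) = ((d : ℝ) + 1) * (d.factorial : ℝ) := by
          rw [Nat.factorial_succ]
          push_cast
          ring
        have h10 : ((b t : ℝ) + (a (t - e) : ℝ)) * ((d + 1).factorial : ℝ) ≤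
            (a t : ℝ) * ((d + 1).factorial : ℝ) :=
          mul_le_mul_of_nonneg_right h8 (by positivity)
        have h11 : ((d : ℝ) + 1) * (κ * (t : ℝ) ^ d) ≤ (b t : ℝ) * ((d + 1).factorial : ℝ) := by
          rw [h9]
          have h12 : ((d : ℝ) + 1) * (κ * (t : ℝ) ^ d) ≤ ((d : ℝ) + 1) * ((b t : ℝ) * d.factorial) :=
            mul_le_mul_of_nonneg_left h5.le (by positivity)
          linarith
        have h13 : κ / e * ((t : ℝ) ^ (d + 1) - ((t : ℝ) - e) ^ (d + 1)) ≤
            κ / e * (((d : ℝ) + 1) * e * (t : ℝ) ^ d) :=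
          mul_le_mul_of_nonneg_left h7 (by positivity)
        have h14 : κ / e * (((d : ℝ) + 1) * e * (t : ℝ) ^ d) = ((d : ℝ) + 1) * (κ * (t : ℝ) ^ d) := by
          field_simp
        rw [h14] at h13
        linarith
  -- large values
  obtain ⟨T, hT⟩ := exists_nat_gt (κ / e * (t1 : ℝ) ^ (d + 1) / (ε / (2 * e)))
  obtain ⟨t, ht, hat⟩ := h1 (ε / (2 * e)) (by positivity) (max T 1)
  have h3 := key t
  have h4 : κ / e = δ + ε / e := by
    rw [hκ]
    push_cast
    field_simp
  have h5 : ε / (2 * e) * (t : ℝ) ^ (d + 1) ≤ κ / e * (t1 : ℝ) ^ (d + 1) := by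
    have h6 : κ / e * (t : ℝ) ^ (d + 1) =
        ((δ : ℝ) + ε / (2 * e)) * (t : ℝ) ^ (d + 1) + ε / (2 * e) * (t : ℝ) ^ (d + 1) := by
      rw [h4]
      field_simp
      ring
    linarith
  have ht1' : (1 : ℝ) ≤ t := by exact_mod_cast (le_max_right T 1).trans ht
  have hTt : (T : ℝ) ≤ t := by exact_mod_cast (le_max_left T 1).trans ht
  have h6 : (t : ℝ) ≤ (t : ℝ) ^ (d + 1) := le_self_pow₀ ht1' (by omega)
  have h7 : κ / e * (t1 : ℝ) ^ (d + 1) < ε / (2 * e) * t := by
    rw [div_lt_iff₀ (by positivity)] at hT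
    have h8 : (T : ℝ) * (ε / (2 * e)) ≤ t * (ε / (2 * e)) :=
      mul_le_mul_of_nonneg_right hTt (by positivity)
    linarith
  have h8 : ε / (2 * e) * (t : ℝ) ≤ ε / (2 * e) * (t : ℝ) ^ (d + 1) :=
    mul_le_mul_of_nonneg_left h6 (by positivity)
  linarith

end Pool.Agent.Q184.WD
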